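import Pool.Agent.helper90.DH.SpecI

/-!
# Module `SPM` (row `d2:iSPM`, helper93): monotonicity
-/

set_option autoImplicit false

open Filter Topology MeasureTheory
open scoped commutatorElement

namespace Pool.Agent.helper90.DH

open Pool.Agent.helper64.D2

theorem SPM_NB (C C' w0 q s0 : ℕ) (h : C ≤ C') (hN : NB C' w0 q s0) : NB C w0 q s0 := by
  obtain ⟨h1, h2, h3, h4⟩ := hN
  refine ⟨h1, h.trans h2, le_trans ?_ h3, le_trans ?_ h4⟩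
  · gcongr
  · gcongr

theorem SPM_HY (K0 : ℝ) (w0 a q s0 S m0 : ℕ) (cm : ℕ → ℕ → DD) (σ : ℕ → ℕ) (δ δ' : ℝ) (h : δ ≤ δ') (hH : HY K0 w0 a q s0 S m0 cm σ δ) :
    HY K0 w0 a q s0 S m0 cm σ δ' := by
  refine ⟨fun s h1 h2 => ?_, hH.2⟩
  obtain ⟨a1, a2, a3, a4⟩ := hH.1 s h1 h2
  exact ⟨fun i hi => ⟨fun x => ((a1 i hi).1 x).trans h, (a1 i hi).2⟩, a2, a3, a4⟩

theorem SPM : SPM_stmt := by
  refine ⟨?_, ?_, ?_⟩
  · intro C C' a hCC h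
    obtain ⟨h1, h2, h3, h4, h5, h6, h7, h8, h9, h10, h11⟩ := h
    refine ⟨h1, h2, h3, h4, h5, h6, h7, h8, h9, SPM_NB _ _ _ _ _ (by omega) h10, le_trans ?_ h11⟩
    have hc : (C : ℝ) ≤ C' := by exact_mod_cast hCC
    have hp : 0 ≤ a.A * a.B0 + 1 / (a.ρ : ℝ) := by
      have : 0 ≤ a.A * a.B0 := mul_nonneg h7.le (by linarith)
      positivity
    exact mul_le_mul_of_nonneg_right hc hp
  · intro K0 m0 w0 a δ δ' B0 q s0 hδ h cm σ y N hPA hsupp hy S D hS hSN hHY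
    exact h cm σ y N hPA hsupp hy S D hS hSN (SPM_HY K0 w0 a q s0 S m0 cm σ δ δ' hδ hHY)
  · intro KB th δ m0 w0 ρ T T' cs hT h t ht
    obtain ⟨h1, h2⟩ := h t (ht.trans hT)
    refine ⟨h1, fun i hi => ⟨(h2 i hi).1, (h2 i hi).2.1, fun t' h3 h4 => (h2 i hi).2.2 t' h3 (h4.trans hT)⟩⟩

end Pool.Agent.helper90.DH
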